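import Pool.Agent.MP_38a5c8_lc.H27.Member
import Pool.Agent.MP_38a5c8_lc.H27.Hard

set_option autoImplicit false

namespace Pool.Agent.Results.MP_38a5c8_lc.Theta2Complete

open Pool.Agent.MP_38a5c8_lc.H27 Pool.Agent.Shared.H56

theorem mem_parallelNP_of_np {L : N68a2faeb.DecisionProblem} (h : L ∈ N68a2faeb.NP) :
    L ∈ ParallelNP :=
  ⟨L, h, fun x => [x], fun z => z.2.getD 0 false, PT.isPolyTime (by fun_prop),
    PT.isPolyTime (by fun_prop), fun x => by simp⟩

theorem mem_parallelNP_of_coNP {L : N68a2faeb.DecisionProblem} (h : L ∈ N68a2faeb.coNP) :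
    L ∈ ParallelNP :=
  ⟨Lᶜ, h, fun x => [x], fun z => !z.2.getD 0 false, PT.isPolyTime (by fun_prop),
    PT.isPolyTime (by fun_prop), fun x => by
      show L x = !(!L x)
      simp⟩

/-- EDGE-STRONG is complete, under polynomial-time many-one reductions, for the class of problems
decided in polynomial time with one round of parallel queries to an NP oracle; in particular it is
NP-hard and co-NP-hard. -/
theorem result : N793a5b8e.IsCompleteFor ParallelNP edgeStrongLang ∧
    ∀ L ∈ N68a2faeb.NP ∪ N68a2faeb.coNP, N793a5b8e.ManyOneReducible L edgeStrongLang :=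
  ⟨⟨edgeStrong_mem, parallelNP_hard⟩, fun L hL =>
    parallelNP_hard L (hL.elim mem_parallelNP_of_np mem_parallelNP_of_coNP)⟩

end Pool.Agent.Results.MP_38a5c8_lc.Theta2Complete
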